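import Pool.Agent.H745Z.MinkDefs
import Pool.Agent.H745Z.MinkC

namespace Pool.Agent.Results.MP_40d282_co.DenserThanHex

open Pool.Agent.H745Z.Mink

/-- For unit vectors `u`, `v` forming an angle `π / 3` there are `μ ∈ (√3 - 1, 1)` and a
`μ`-arrangement of positive homogeneity whose density exceeds the density of the hexagonal
arrangement relative to its union. -/
theorem result (u v : ℂ) (hu : ‖u‖ = 1) (hv : ‖v‖ = 1)
    (huv : InnerProductGeometry.angle u v = Real.pi / 3) :
    ∃ μ : ℝ, Real.sqrt 3 - 1 < μ ∧ μ < 1 ∧ ∃ F : Set (ℂ × ℝ), IsArr μ F ∧ PosHom F ∧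
      densityU (hex μ u v) < density F :=
  main u v hu hv huv

end Pool.Agent.Results.MP_40d282_co.DenserThanHex
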